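import Pool.Agent.N329.SD.StmL
import Pool.Agent.R587.Rec

/-!
# Graphs of partial recursive functions are in every transitive model of ZF

The computations are coded by finite sets. Helper655, following `R587/Rec.lean`.
-/

set_option autoImplicit false
set_option linter.unreachableTactic false
set_option linter.unusedTactic false

namespace Pool.Agent.N655.SD

open Pool.Agent.W868 hiding nat_mem_omega
open Pool.Agent.R587
open ZFSet (pair)

variable {M : Set ZFSet.{0}}

/-- The part of the graph below `n`. -/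
noncomputable def cut (f : ℕ →. ℕ) : ℕ → ZFSet.{0}
  | 0 => ∅
  | n + 1 => open Classical in
    if h : (f n).Dom then insert (pair (nat n) (nat ((f n).get h))) (cut f n) else cut f n

theorem mem_cut {f : ℕ →. ℕ} {n : ℕ} {z : ZFSet.{0}} :
    z ∈ cut f n ↔ ∃ a b : ℕ, a < n ∧ b ∈ f a ∧ z = pair (nat a) (nat b) := by
  induction n with
  | zero => simp [cut, ZFSet.notMem_empty]
  | succ n ih =>
    rw [cut]
    split_ifs with h
    · rw [ZFSet.mem_insert_iff, ih]
      constructor
      · rintro (rfl | ⟨a, b, h1, h2, rfl⟩)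
        · exact ⟨n, _, Nat.lt_succ_self n, Part.get_mem h, rfl⟩
        · exact ⟨a, b, by omega, h2, rfl⟩
      · rintro ⟨a, b, h1, h2, rfl⟩
        rcases Nat.lt_succ_iff_lt_or_eq.1 h1 with h3 | rfl
        · exact Or.inr ⟨a, b, h3, h2, rfl⟩
        · left
          rw [Part.get_eq_of_mem h2 h]
    · rw [ih]
      constructor
      · rintro ⟨a, b, h1, h2, rfl⟩
        exact ⟨a, b, by omega, h2, rfl⟩
      · rintro ⟨a, b, h1, h2, rfl⟩
        rcases Nat.lt_succ_iff_lt_or_eq.1 h1 with h3 | rfl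
        · exact ⟨a, b, h3, h2, rfl⟩
        · exact absurd (Part.dom_iff_mem.2 ⟨b, h2⟩) h

theorem pair_mem_cut {f : ℕ →. ℕ} {n a b : ℕ} :
    pair (nat a) (nat b) ∈ cut f n ↔ a < n ∧ b ∈ f a := by
  rw [mem_cut]
  constructor
  · rintro ⟨a', b', h1, h2, h3⟩
    obtain ⟨h4, h5⟩ := ZFSet.pair_inj.1 h3
    rw [nat_injective h4, nat_injective h5]
    exact ⟨h1, h2⟩
  · rintro ⟨h1, h2⟩
    exact ⟨a, b, h1, h2, rfl⟩

theorem cut_mem (hM : IsZF M) (f : ℕ →. ℕ) (n : ℕ) : cut f n ∈ M := by
  have hn : ∀ k, nat k ∈ M := fun k => hM.trans _ hM.infinity _ (nat_mem_omega k)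
  induction n with
  | zero => exact hM.empty_mem
  | succ n ih =>
    rw [cut]
    split_ifs with h
    · exact hM.insert_mem (hM.pair_mem (hn _) (hn _)) ih
    · exact ih

/-- The graph is in `M` if the relation is definable with parameters. -/
theorem gph_mem (hM : IsZF M) {f : ℕ →. ℕ} {Q : ZFSet.{0} → ZFSet.{0} → Prop}
    (hQ : Dfn M M fun w : Fin 2 → ZFSet.{0} => Q (w 0) (w 1))
    (h : ∀ a b : ℕ, Q (nat a) (nat b) ↔ b ∈ f a) : gph f ∈ M := by
  have h1 : gph f = ZFSet.sep (fun p => ∃ a ∈ ZFSet.omega, ∃ b ∈ ZFSet.omega,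
      p = pair a b ∧ Q a b) (ZFSet.prod ZFSet.omega ZFSet.omega) := by
    ext z
    rw [ZFSet.mem_sep]
    constructor
    · intro hz
      refine ⟨gph_sub f hz, ?_⟩
      obtain ⟨a, ha, b, hb, rfl⟩ := ZFSet.mem_prod.1 (gph_sub f hz)
      obtain ⟨m, rfl⟩ := mem_omega_iff.1 ha
      obtain ⟨n, rfl⟩ := mem_omega_iff.1 hb
      exact ⟨_, ha, _, hb, rfl, (h m n).2 (nat_pair_mem_gph.1 hz)⟩
    · rintro ⟨-, a, ha, b, hb, rfl, h4⟩
      obtain ⟨m, rfl⟩ := mem_omega_iff.1 ha
      obtain ⟨n, rfl⟩ := mem_omega_iff.1 hb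
      exact nat_pair_mem_gph.2 ((h m n).1 h4)
  rw [h1]
  have hB := hM.base
  have hω := hM.infinity
  refine hM.sep_mem ?_ (hM.prod_mem hM.infinity hM.infinity)
  (repeat' first
    | exact DfnF.proj _
    | exact DfnF.const hω
    | exact Dfn.comp2 (Q := Q) hQ (DfnF.proj 1) (DfnF.proj 0)
    | apply Dfn.and
    | apply hB.bex | apply hB.ball
    | apply Dfn.eq | apply Dfn.mem | apply hB.pair')

theorem dfn_nx (hM : IsZF M) :
    Dfn M M fun w : Fin 4 → ZFSet.{0} => Nx (w 0) (w 1) (w 2) (w 3) := by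
  have hB := hM.base
  have h0 := hM.empty_mem
  unfold Nx
  (repeat' first
      | exact DfnF.proj _
      | exact DfnF.const h0
      | apply Dfn.and | apply Dfn.or | apply Dfn.imp
      | apply Dfn.eq | apply Dfn.mem | apply hB.pair' | apply hB.insert')

theorem dfn_pq (hM : IsZF M) :
    Dfn M M fun w : Fin 3 → ZFSet.{0} => PQ M (w 0) (w 1) (w 2) := by
  have hB := hM.base
  have h0 := hM.empty_mem
  have h1 := hM.infinity
  have h2 := dfn_nx hM
  unfold PQ
  (repeat' first
      | exact DfnF.proj _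
      | exact DfnF.const h0
      | exact DfnF.const h1
      | exact Dfn.comp4 (Q := Nx) h2 (DfnF.proj 1) (DfnF.proj 0) (DfnF.proj 4) (DfnF.proj 3)
      | apply Dfn.and | apply Dfn.or | apply Dfn.imp
      | apply hB.bex | apply hB.ball | apply Dfn.ex | apply Dfn.all
      | apply Dfn.eq | apply Dfn.mem | apply hB.pair' | apply hB.insert')

theorem pq_iff (hM : IsZF M) {a b n : ℕ} : PQ M (nat a) (nat b) (nat n) ↔ n.unpair = (a, b) := by
  constructor
  · rintro ⟨s, -, t, -, h1, h2, h3⟩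
    induction n generalizing a b with
    | zero =>
      rcases h3 _ (nat_mem_omega _) _ (nat_mem_omega _) _ (nat_mem_omega _) h1 h2 with
        ⟨-, h4, h5⟩ | ⟨n', -, a', -, b', -, h4, -⟩
      · rw [← nat_zero'] at h4 h5
        rw [nat_injective h4, nat_injective h5]
        rfl
      · exfalso
        have h5 : n' ∈ nat 0 := by
          rw [h4]
          exact ZFSet.mem_insert n' n'
        exact ZFSet.notMem_empty _ h5
    | succ n ih =>
      rcases h3 _ (nat_mem_omega _) _ (nat_mem_omega _) _ (nat_mem_omega _) h1 h2 with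
        ⟨h4, -⟩ | ⟨n', hn, a', ha, b', hb, h4, h5, h6, h7⟩
      · rw [← nat_zero'] at h4
        exact absurd (nat_injective h4) (by omega)
      · obtain ⟨n', rfl⟩ := mem_omega_iff.1 hn
        obtain ⟨a', rfl⟩ := mem_omega_iff.1 ha
        obtain ⟨b', rfl⟩ := mem_omega_iff.1 hb
        rw [insert_nat] at h4
        have h8 : n = n' := by
          have := nat_injective h4
          omega
        subst h8
        rw [unpair_succ, ih h5 h6]
        exact (nx_iff.1 h7).symm
  · intro h
    refine ⟨cut (↑fun n : ℕ => n.unpair.1) (n + 1), cut_mem hM _ _,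
      cut (↑fun n : ℕ => n.unpair.2) (n + 1), cut_mem hM _ _, ?_, ?_, ?_⟩
    · rw [pair_mem_cut]
      simp [h]
    · rw [pair_mem_cut]
      simp [h]
    · intro m hm c hc d hd h1 h2
      obtain ⟨m, rfl⟩ := mem_omega_iff.1 hm
      obtain ⟨c, rfl⟩ := mem_omega_iff.1 hc
      obtain ⟨d, rfl⟩ := mem_omega_iff.1 hd
      rw [pair_mem_cut] at h1
      rw [pair_mem_cut] at h2
      simp only [PFun.coe_val, Part.mem_some_iff] at h1 h2
      obtain ⟨h5, h1⟩ := h1
      obtain ⟨-, h2⟩ := h2
      subst h1 h2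
      cases m with
      | zero => exact Or.inl ⟨rfl, rfl, rfl⟩
      | succ m =>
        refine Or.inr ⟨nat m, nat_mem_omega _, nat m.unpair.1, nat_mem_omega _,
          nat m.unpair.2, nat_mem_omega _, rfl, ?_, ?_, ?_⟩
        · rw [pair_mem_cut]
          exact ⟨by omega, by simp⟩
        · rw [pair_mem_cut]
          exact ⟨by omega, by simp⟩
        · rw [nx_iff, unpair_succ]

theorem gL_mem (hM : IsZF M) : gL ∈ M := by
  have hB := hM.base
  refine gph_mem hM (Q := fun a b => ∃ c ∈ ZFSet.omega, PQ M b c a) ?_ ?_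
  · apply hB.bex (DfnF.const hM.infinity)
    exact Dfn.comp3 (Q := PQ M) (dfn_pq hM) (DfnF.proj 2) (DfnF.proj 0) (DfnF.proj 1)
  · intro a b
    simp only [PFun.coe_val, Part.mem_some_iff]
    constructor
    · rintro ⟨c, hc, h⟩
      obtain ⟨c, rfl⟩ := mem_omega_iff.1 hc
      rw [pq_iff hM] at h
      simp [h]
    · rintro rfl
      refine ⟨nat a.unpair.2, nat_mem_omega _, ?_⟩
      rw [pq_iff hM]

theorem gR_mem (hM : IsZF M) : gR ∈ M := by
  have hB := hM.base
  refine gph_mem hM (Q := fun a b => ∃ c ∈ ZFSet.omega, PQ M c b a) ?_ ?_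
  · apply hB.bex (DfnF.const hM.infinity)
    exact Dfn.comp3 (Q := PQ M) (dfn_pq hM) (DfnF.proj 0) (DfnF.proj 2) (DfnF.proj 1)
  · intro a b
    simp only [PFun.coe_val, Part.mem_some_iff]
    constructor
    · rintro ⟨c, hc, h⟩
      obtain ⟨c, rfl⟩ := mem_omega_iff.1 hc
      rw [pq_iff hM] at h
      simp [h]
    · rintro rfl
      refine ⟨nat a.unpair.1, nat_mem_omega _, ?_⟩
      rw [pq_iff hM]

theorem pp_iff (hM : IsZF M) {f g : ℕ →. ℕ} {a b : ℕ} :
    PP M f g (nat a) (nat b) ↔ b ∈ rv f g a.unpair.1 a.unpair.2 := by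
  constructor
  · rintro ⟨c, hc, d, hd, h1, t, -, h2, h3⟩
    obtain ⟨c, rfl⟩ := mem_omega_iff.1 hc
    obtain ⟨d, rfl⟩ := mem_omega_iff.1 hd
    rw [pr_nat] at h1
    have h4 := nat_injective h1
    subst h4
    rw [Nat.unpair_pair]
    dsimp only
    clear h1 hc hd
    induction d generalizing b with
    | zero =>
      rcases h3 _ (nat_mem_omega _) _ (nat_mem_omega _) h2 with ⟨-, h4⟩ | ⟨i, -, j, -, h4, -⟩
      · have h5 : b ∈ f c := nat_pair_mem_gph.1 h4
        exact h5
      · exfalso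
        have h5 : i ∈ nat 0 := by
          rw [h4]
          exact ZFSet.mem_insert i i
        exact ZFSet.notMem_empty _ h5
    | succ d ih =>
      rcases h3 _ (nat_mem_omega _) _ (nat_mem_omega _) h2 with ⟨h4, -⟩ |
        ⟨i, hi, j, hj, h4, h5, u, hu, w, hw, h6, h7, h8⟩
      · rw [← nat_zero'] at h4
        exact absurd (nat_injective h4) (by omega)
      · obtain ⟨i, rfl⟩ := mem_omega_iff.1 hi
        obtain ⟨j, rfl⟩ := mem_omega_iff.1 hj
        rw [insert_nat] at h4
        have h9 : d = i := by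
          have := nat_injective h4
          omega
        subst h9
        rw [pr_nat] at h6
        subst h6
        rw [pr_nat] at h7
        subst h7
        rw [nat_pair_mem_gph] at h8
        exact Part.mem_bind_iff.2 ⟨j, ih h5, h8⟩
  · intro h
    refine ⟨nat a.unpair.1, nat_mem_omega _, nat a.unpair.2, nat_mem_omega _, ?_,
      cut (rv f g a.unpair.1) (a.unpair.2 + 1), cut_mem hM _ _,
      pair_mem_cut.2 ⟨Nat.lt_succ_self _, h⟩, ?_⟩
    · rw [pr_nat, Nat.pair_unpair]
    · intro i hi j hj h1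
      obtain ⟨i, rfl⟩ := mem_omega_iff.1 hi
      obtain ⟨j, rfl⟩ := mem_omega_iff.1 hj
      rw [pair_mem_cut] at h1
      obtain ⟨h0, h1⟩ := h1
      cases i with
      | zero => exact Or.inl ⟨rfl, nat_pair_mem_gph.2 h1⟩
      | succ i =>
        obtain ⟨k, hk, h2⟩ := Part.mem_bind_iff.1 h1
        exact Or.inr ⟨nat i, nat_mem_omega _, nat k, nat_mem_omega _, rfl,
          pair_mem_cut.2 ⟨by omega, hk⟩, nat (Nat.pair i k), nat_mem_omega _,
          nat (Nat.pair a.unpair.1 (Nat.pair i k)), nat_mem_omega _, pr_nat.2 rfl, pr_nat.2 rfl,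
          nat_pair_mem_gph.2 h2⟩

theorem gph_mem_all (hM : IsZF M) {f : ℕ →. ℕ} (hf : Nat.Partrec f) : gph f ∈ M := by
  have hB := hM.base
  have k0 := hM.empty_mem
  have k1 := hM.infinity
  have kL := gL_mem hM
  have kR := gR_mem hM
  have kP : Dfn M M fun w : Fin 3 → ZFSet.{0} => PR (w 0) (w 1) (w 2) := by
    unfold PR
    (repeat' first
      | exact DfnF.proj _
      | exact DfnF.const kL
      | exact DfnF.const kR
      | apply Dfn.and
      | apply Dfn.mem | apply hB.pair')
  induction hf with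
  | zero =>
    refine gph_mem hM (Q := fun a b => b = ∅) ?_ ?_
    · exact Dfn.eq (DfnF.proj _) (DfnF.const k0)
    · intro a b
      rw [← nat_zero', nat_injective.eq_iff]
      exact Part.mem_some_iff.symm
  | succ =>
    refine gph_mem hM (Q := fun a b => b = insert a a) ?_ ?_
    · exact Dfn.eq (DfnF.proj _) (hB.insert' (DfnF.proj _) (DfnF.proj _))
    · intro a b
      rw [insert_nat, nat_injective.eq_iff]
      exact Part.mem_some_iff.symm
  | left => exact kL
  | right => exact kR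
  | @pair f g hf hg ihf ihg =>
    refine gph_mem hM (Q := fun a b => ∃ c ∈ ZFSet.omega, ∃ d ∈ ZFSet.omega,
      pair a c ∈ gph f ∧ pair a d ∈ gph g ∧ PR c d b) ?_ ?_
    · (repeat' first
      | exact DfnF.proj _
      | exact DfnF.const k1
      | exact DfnF.const ihf
      | exact DfnF.const ihg
      | exact Dfn.comp3 (Q := PR) kP (DfnF.proj 1) (DfnF.proj 0) (DfnF.proj 3)
      | apply Dfn.and
      | apply hB.bex
      | apply Dfn.mem | apply hB.pair')
    · intro a b
      refine Iff.trans ?_ (mem_seq_pair (x := f a) (y := g a) (b := b)).symm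
      constructor
      · rintro ⟨c, hc, d, hd, h1, h2, h3⟩
        obtain ⟨c, rfl⟩ := mem_omega_iff.1 hc
        obtain ⟨d, rfl⟩ := mem_omega_iff.1 hd
        rw [nat_pair_mem_gph] at h1 h2
        rw [pr_nat, nat_injective.eq_iff] at h3
        exact ⟨c, h1, d, h2, h3.symm⟩
      · rintro ⟨c, h1, d, h2, rfl⟩
        exact ⟨nat c, nat_mem_omega _, nat d, nat_mem_omega _, nat_pair_mem_gph.2 h1,
          nat_pair_mem_gph.2 h2, pr_nat.2 rfl⟩
  | @comp f g hf hg ihf ihg =>
    refine gph_mem hM (Q := fun a b => ∃ c ∈ ZFSet.omega,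
      pair a c ∈ gph g ∧ pair c b ∈ gph f) ?_ ?_
    · (repeat' first
      | exact DfnF.proj _
      | exact DfnF.const k1
      | exact DfnF.const ihf
      | exact DfnF.const ihg
      | apply Dfn.and
      | apply hB.bex
      | apply Dfn.mem | apply hB.pair')
    · intro a b
      refine Iff.trans ?_ (Part.mem_bind_iff (f := g a) (g := f) (b := b)).symm
      constructor
      · rintro ⟨c, hc, h1, h2⟩
        obtain ⟨c, rfl⟩ := mem_omega_iff.1 hc
        exact ⟨c, nat_pair_mem_gph.1 h1, nat_pair_mem_gph.1 h2⟩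
      · rintro ⟨c, h1, h2⟩
        exact ⟨nat c, nat_mem_omega _, nat_pair_mem_gph.2 h1, nat_pair_mem_gph.2 h2⟩
  | @prec f g hf hg ihf ihg =>
    refine gph_mem hM (Q := PP M f g) ?_ fun a b => pp_iff hM
    unfold PP PC
    (repeat' first
      | exact DfnF.proj _
      | exact DfnF.const k0
      | exact DfnF.const k1
      | exact DfnF.const ihf
      | exact DfnF.const ihg
      | exact Dfn.comp3 (Q := PR) kP (DfnF.proj _) (DfnF.proj _) (DfnF.proj _)
      | apply Dfn.and | apply Dfn.or | apply Dfn.imp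
      | apply hB.bex | apply hB.ball | apply Dfn.ex | apply Dfn.all
      | apply Dfn.eq | apply Dfn.mem | apply hB.pair' | apply hB.insert')
  | @rfind f hf ihf =>
    refine gph_mem hM (Q := fun a b => (∃ u ∈ ZFSet.omega, PR a b u ∧
      pair u ∅ ∈ gph f) ∧ ∀ m ∈ b, ∃ u ∈ ZFSet.omega, PR a m u ∧ ∃ k ∈ ZFSet.omega,
        k ≠ ∅ ∧ pair u k ∈ gph f) ?_ ?_
    · (repeat' first
      | exact DfnF.proj _
      | exact DfnF.const k0
      | exact DfnF.const k1
      | exact DfnF.const ihf
      | exact Dfn.comp3 (Q := PR) kP (DfnF.proj 1) (DfnF.proj 2) (DfnF.proj 0)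
      | exact Dfn.comp3 (Q := PR) kP (DfnF.proj 2) (DfnF.proj 1) (DfnF.proj 0)
      | apply Dfn.not | apply Dfn.and | apply Dfn.or | apply Dfn.imp
      | apply hB.bex | apply hB.ball | apply Dfn.ex | apply Dfn.all
      | apply Dfn.eq | apply Dfn.mem | apply hB.pair' | apply hB.insert')
    · intro a b
      refine Iff.trans ?_ (mem_rfind_zero (F := fun n => f (Nat.pair a n)) (b := b)).symm
      constructor
      · rintro ⟨⟨u, hu, h1, h2⟩, h3⟩
        rw [pr_nat] at h1
        subst h1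
        rw [← nat_zero'] at h2
        refine ⟨nat_pair_mem_gph.1 h2, fun m hm => ?_⟩
        obtain ⟨u, hu, h4, k, hk, h5, h6⟩ := h3 (nat m) (nat_mem_nat_iff.2 hm)
        obtain ⟨k, rfl⟩ := mem_omega_iff.1 hk
        rw [pr_nat] at h4
        subst h4
        refine ⟨k, ?_, nat_pair_mem_gph.1 h6⟩
        rintro rfl
        exact h5 rfl
      · rintro ⟨h1, h2⟩
        refine ⟨⟨nat (Nat.pair a b), nat_mem_omega _, pr_nat.2 rfl, nat_pair_mem_gph.2 h1⟩, ?_⟩
        intro m hm
        obtain ⟨m, hm', rfl⟩ := mem_nat_iff.1 hm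
        obtain ⟨k, hk, h3⟩ := h2 m hm'
        refine ⟨nat (Nat.pair a m), nat_mem_omega _, pr_nat.2 rfl, nat k, nat_mem_omega _, ?_,
          nat_pair_mem_gph.2 h3⟩
        rw [← nat_zero']
        exact fun h => hk (nat_injective h)

/-- SD/PR -/
theorem pr : Pool.Agent.N329.SD.S_PR := fun _ hM _ hf => gph_mem_all hM hf

end Pool.Agent.N655.SD
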